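import Pool.Agent.H698R3.AmMain

set_option autoImplicit false

/-! Matching homomorphisms of the vertex groups of a finite graph of groups. -/

namespace Pool.Agent.H828.GoG

open Filter Topology Pool.Agent.H698R3.Amalg

/-- The part of `GData` which does not depend on the finite subgroup. -/
structure NData (𝒞 : Cls) (G : Type) [Group G] where
  T : Type
  finT : Fintype T
  decT : DecidableEq T
  s : ∀ k, (G →* 𝒞.C k) → T → ℕ
  Siz : T → AddSubmonoid ℕ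
  mem : ∀ k ψ t, s k ψ t ∈ Siz t
  sum : ∀ k ψ, ∑ t, s k ψ t = k
  triv : T
  triv_mem : 1 ∈ Siz triv
  real : ∀ (k : ℕ) (p : T → ℕ), (∀ t, p t ∈ Siz t) → ∑ t, p t = k → ∃ ψ : G →* 𝒞.C k, s k ψ = p
  adjust : ∀ (F : Finset G) (ε : ℝ), 0 < ε → ∃ η : ℝ, 0 < η ∧ ∃ L0 : ℕ, ∀ k ≥ L0,
    ∀ ψ : G →* 𝒞.C k, ∀ t : T → ℕ, (∀ i, t i ∈ Siz i) → ∑ i, t i = k →
      (∀ i, |(t i : ℝ) - s k ψ i| ≤ η * k) →
      ∃ ψ' : G →* 𝒞.C k, s k ψ' = t ∧ ∀ g ∈ F, 𝒞.d k (ψ' g) (ψ g) ≤ ε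

attribute [instance] NData.finT NData.decT

/-- The part of `GData` which depends on the finite subgroup. -/
structure FData {𝒞 : Cls} {H G : Type} [Group H] [Group G] (A : NData 𝒞 G) (f : H →* G)
    (D : HData 𝒞 H) where
  ρ : A.T → D.E → ℝ
  triv_rho : ∀ e, ρ A.triv e = D.hv 1 1 e
  hv_eq : ∀ k (ψ : G →* 𝒞.C k) e, D.hv k (ψ.comp f) e = ∑ t, (A.s k ψ t : ℝ) * ρ t e

theorem exists_pos_le {ι : Type} [Finite ι] (c : ι → ℝ) (hc : ∀ i, 0 < c i) :
    ∃ c0 : ℝ, 0 < c0 ∧ ∀ i, c0 ≤ c i := by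
  rcases isEmpty_or_nonempty ι with h | h
  · exact ⟨1, one_pos, fun i => h.elim i⟩
  · obtain ⟨i0, hi0⟩ := Finite.exists_min c
    exact ⟨c i0, hc i0, hi0⟩

theorem exists_nat_ge {ι : Type} [Finite ι] (L : ι → ℕ) : ∃ K : ℕ, ∀ i, L i ≤ K := by
  obtain ⟨K, hK⟩ := (Set.finite_range L).bddAbove
  exact ⟨K, fun i => hK ⟨i, rfl⟩⟩

section ext

variable {V : Type} [DecidableEq V] {T : V → Type}

/-- extension by zero of a function on one summand -/
def ext (v0 : V) (g : T v0 → ℝ) (i : Σ v, T v) : ℝ :=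
  if h : i.1 = v0 then g (h ▸ i.2) else 0

theorem sum_ext [Fintype V] [∀ v, Fintype (T v)] (v0 : V) (g : T v0 → ℝ) (p : (Σ v, T v) → ℝ) :
    ∑ i, ext v0 g i * p i = ∑ τ, g τ * p ⟨v0, τ⟩ := by
  rw [Fintype.sum_sigma, Finset.sum_eq_single v0]
  · refine Finset.sum_congr rfl fun τ _ => ?_
    simp [ext]
  · intro v _ hv
    refine Finset.sum_eq_zero fun τ _ => ?_
    simp [ext, hv]
  · intro h; exact absurd (Finset.mem_univ _) h

theorem sum_w [Fintype V] [∀ v, Fintype (T v)] (v0 : V) (p : (Σ v, T v) → ℕ) :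
    ∑ i : Σ v, T v, (if i.1 = v0 then 1 else 0) * p i = ∑ τ, p ⟨v0, τ⟩ := by
  rw [Fintype.sum_sigma, Finset.sum_eq_single v0]
  · refine Finset.sum_congr rfl fun τ _ => ?_
    simp
  · intro v _ hv
    refine Finset.sum_eq_zero fun τ _ => ?_
    simp [hv]
  · intro h; exact absurd (Finset.mem_univ _) h

end ext

section

variable {𝒞 : Cls} (hm : 𝒞.IsMetric) {V E : Type} [Fintype V] [Fintype E]
  {G : V → Type} [∀ v, Group (G v)] {H : E → Type} [∀ e, Group (H e)] [∀ e, Fintype (H e)]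
  (s t : E → V) (f : ∀ e, H e →* G (s e)) (f' : ∀ e, H e →* G (t e))
  (D : ∀ e, HData 𝒞 (H e)) (A : ∀ v, NData 𝒞 (G v))
  (B : ∀ e, FData (A (s e)) (f e) (D e)) (B' : ∀ e, FData (A (t e)) (f' e) (D e))

include hm B B' in
theorem vectors [Nonempty V] (F : ∀ v, Finset (G v)) (ε : ℝ) (hε : 0 < ε) :
    ∃ δ : ℝ, 0 < δ ∧ ∀ k (ψ : ∀ v, G v →* 𝒞.C k),
      (∀ e x, |(D e).hv k ((ψ (s e)).comp (f e)) x - (D e).hv k ((ψ (t e)).comp (f' e)) x|
        ≤ δ * k) →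
      ∃ θ : ∀ v, G v →* 𝒞.C k,
        (∀ e, (D e).hv k ((θ (s e)).comp (f e)) = (D e).hv k ((θ (t e)).comp (f' e))) ∧
        ∀ v, ∀ g ∈ F v, 𝒞.d k (θ v g) (ψ v g) ≤ ε := by
  classical
  obtain ⟨v0⟩ := (inferInstance : Nonempty V)
  choose η hη L hL using fun v => (A v).adjust (F v) ε hε
  obtain ⟨η0, hη0, hηle⟩ := exists_pos_le η hη
  obtain ⟨L0, hLle⟩ := exists_nat_ge L
  obtain ⟨c1, hc1, hcle⟩ := exists_pos_le (fun e => (D e).c) (fun e => (D e).hc)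
  -- the linear constraints
  let M : V ⊕ (Σ e, (D e).E) → (Σ v, (A v).T) → ℝ := fun r =>
    Sum.elim (fun v i => ext (T := fun v => (A v).T) v (fun _ => 1) i -
        ext (T := fun v => (A v).T) v0 (fun _ => 1) i)
      (fun q i => ext (T := fun v => (A v).T) (s q.1) (fun τ => (B q.1).ρ τ q.2) i -
        ext (T := fun v => (A v).T) (t q.1) (fun τ => (B' q.1).ρ τ q.2) i) r
  have hMl : ∀ v (p : (Σ v, (A v).T) → ℝ), ∑ i, M (Sum.inl v) i * p i =
      ∑ τ, p ⟨v, τ⟩ - ∑ τ, p ⟨v0, τ⟩ := by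
    intro v p
    have h1 := sum_ext (T := fun v => (A v).T) v (fun _ => 1) p
    have h2 := sum_ext (T := fun v => (A v).T) v0 (fun _ => 1) p
    simp only [one_mul] at h1 h2
    rw [← h1, ← h2, ← Finset.sum_sub_distrib]
    refine Finset.sum_congr rfl fun i _ => ?_
    show (_ - _) * p i = _
    rw [sub_mul]
  have hMr : ∀ (q : Σ e, (D e).E) (p : (Σ v, (A v).T) → ℝ), ∑ i, M (Sum.inr q) i * p i =
      ∑ τ, (B q.1).ρ τ q.2 * p ⟨s q.1, τ⟩ - ∑ τ, (B' q.1).ρ τ q.2 * p ⟨t q.1, τ⟩ := by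
    intro q p
    have h1 := sum_ext (T := fun v => (A v).T) (s q.1) (fun τ => (B q.1).ρ τ q.2) p
    have h2 := sum_ext (T := fun v => (A v).T) (t q.1) (fun τ => (B' q.1).ρ τ q.2) p
    rw [← h1, ← h2, ← Finset.sum_sub_distrib]
    refine Finset.sum_congr rfl fun i _ => ?_
    show (_ - _) * p i = _
    rw [sub_mul]
  obtain ⟨δr, hδr, N0, hround⟩ := rounding (T := Σ v, (A v).T) (E := V ⊕ (Σ e, (D e).E))
    (fun i => (A i.1).Siz i.2) (fun i => if i.1 = v0 then 1 else 0) M (min c1 1)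
    (lt_min hc1 one_pos)
    (by
      intro p hp hlt
      have hsz : ∀ v, ∑ τ, p ⟨v, τ⟩ = ∑ τ, p ⟨v0, τ⟩ := by
        intro v
        have h0 := hlt (Sum.inl v)
        rw [hMl v (fun i => (p i : ℝ))] at h0
        have h2 : |(((∑ τ, p ⟨v, τ⟩ : ℕ) : ℤ) - ((∑ τ, p ⟨v0, τ⟩ : ℕ) : ℤ) : ℤ)| < 1 := by
          have : |((((∑ τ, p ⟨v, τ⟩ : ℕ) : ℤ) - ((∑ τ, p ⟨v0, τ⟩ : ℕ) : ℤ) : ℤ) : ℝ)| < 1 := by
            push_cast
            exact h0.trans_le (min_le_right _ _)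
          exact_mod_cast this
        have h3 := Int.abs_lt_one_iff.mp h2
        omega
      choose ψ hψ using fun v => (A v).real (∑ τ, p ⟨v0, τ⟩) (fun τ => p ⟨v, τ⟩)
        (fun τ => hp ⟨v, τ⟩) (hsz v)
      have hrow : ∀ q : Σ e, (D e).E, ∑ i, M (Sum.inr q) i * (p i : ℝ) =
          (D q.1).hv _ ((ψ (s q.1)).comp (f q.1)) q.2 -
            (D q.1).hv _ ((ψ (t q.1)).comp (f' q.1)) q.2 := by
        intro q
        rw [hMr q (fun i => (p i : ℝ)), (B q.1).hv_eq, (B' q.1).hv_eq, hψ, hψ]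
        congr 1 <;> exact Finset.sum_congr rfl (fun τ _ => mul_comm _ _)
      intro r
      cases r with
      | inl v =>
        rw [hMl v (fun i => (p i : ℝ))]
        have : (∑ τ, (p ⟨v, τ⟩ : ℝ)) = ∑ τ, (p ⟨v0, τ⟩ : ℝ) := by exact_mod_cast hsz v
        rw [this, sub_self]
      | inr q =>
        have heq := (D q.1).disc _ ((ψ (s q.1)).comp (f q.1)) ((ψ (t q.1)).comp (f' q.1))
          (fun x => by
            rw [← hrow ⟨q.1, x⟩]
            exact (hlt (Sum.inr ⟨q.1, x⟩)).trans_le ((min_le_left _ _).trans (hcle q.1)))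
        rw [hrow, heq, sub_self])
    (fun i => if i.2 = (A i.1).triv then 1 else 0)
    (by
      rintro ⟨v, τ⟩
      by_cases h : τ = (A v).triv
      · subst h
        simpa using (A v).triv_mem
      · simpa [h] using ((A v).Siz τ).zero_mem)
    (by
      have hs1 : ∀ v (g : (A v).T → ℝ),
          ∑ τ, g τ * (((if τ = (A v).triv then 1 else 0 : ℕ)) : ℝ) = g (A v).triv := by
        intro v g
        simp
      intro r
      cases r with
      | inl v =>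
        rw [hMl v (fun i => ((if i.2 = (A i.1).triv then 1 else 0 : ℕ) : ℝ))]
        have h1 := hs1 v (fun _ => 1)
        have h2 := hs1 v0 (fun _ => 1)
        simp only [one_mul] at h1 h2
        rw [h1, h2, sub_self]
      | inr q =>
        rw [hMr q (fun i => ((if i.2 = (A i.1).triv then 1 else 0 : ℕ) : ℝ))]
        have h1 := hs1 (s q.1) (fun τ => (B q.1).ρ τ q.2)
        have h2 := hs1 (t q.1) (fun τ => (B' q.1).ρ τ q.2)
        rw [h1, h2, (B q.1).triv_rho, (B' q.1).triv_rho, sub_self])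
    (by
      rw [sum_w (T := fun v => (A v).T) v0]
      simp)
    η0 hη0
  set K : ℕ := max L0 N0 with hK
  refine ⟨min δr (c1 / (2 * (K + 1))), lt_min hδr (by positivity), ?_⟩
  intro k ψ hψ
  have hk0 : (0 : ℝ) ≤ k := Nat.cast_nonneg k
  by_cases hkK : k < K
  · refine ⟨ψ, fun e => (D e).disc k _ _ (fun x => ?_), fun v g _ => ?_⟩
    · refine (hψ e x).trans_lt (lt_of_lt_of_le ?_ (hcle e))
      have h1 : min δr (c1 / (2 * (K + 1))) * (k : ℝ) ≤ c1 / (2 * (K + 1)) * k :=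
        mul_le_mul_of_nonneg_right (min_le_right _ _) hk0
      refine h1.trans_lt ?_
      have hkK' : (k : ℝ) < K := by exact_mod_cast hkK
      have hK0 : (0 : ℝ) ≤ K := Nat.cast_nonneg _
      rw [div_mul_eq_mul_div, div_lt_iff₀ (by positivity)]
      nlinarith
    · rw [hm.self]; exact hε.le
  · have hkK' : K ≤ k := not_lt.mp hkK
    have hk1 : ∀ v, L v ≤ k := fun v => (hLle v).trans ((le_max_left _ _).trans hkK')
    have hk3 : N0 ≤ k := (le_max_right _ _).trans hkK'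
    obtain ⟨y, hy1, hy2, hy3, hy4⟩ := hround k hk3
      (fun i => (A i.1).s k (ψ i.1) i.2)
      (fun i => (A i.1).mem k (ψ i.1) i.2)
      (by
        rw [sum_w (T := fun v => (A v).T) v0]
        exact (A v0).sum k (ψ v0))
      (by
        intro i
        have h1 := (A i.1).sum k (ψ i.1)
        have h2 : (A i.1).s k (ψ i.1) i.2 ≤ ∑ τ, (A i.1).s k (ψ i.1) τ :=
          Finset.single_le_sum (fun _ _ => Nat.zero_le _) (Finset.mem_univ i.2)
        omega)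
      (by
        intro r
        cases r with
        | inl v =>
          rw [hMl v (fun i => ((A i.1).s k (ψ i.1) i.2 : ℝ))]
          have h1 : (∑ τ, ((A v).s k (ψ v) τ : ℝ)) = k := by exact_mod_cast (A v).sum k (ψ v)
          have h2 : (∑ τ, ((A v0).s k (ψ v0) τ : ℝ)) = k := by exact_mod_cast (A v0).sum k (ψ v0)
          rw [h1, h2, sub_self, abs_zero]
          positivity
        | inr q =>
          rw [hMr q (fun i => ((A i.1).s k (ψ i.1) i.2 : ℝ))]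
          have h1 := hψ q.1 q.2
          rw [(B q.1).hv_eq, (B' q.1).hv_eq] at h1
          have h2 : min δr (c1 / (2 * (K + 1))) * (k : ℝ) ≤ δr * k :=
            mul_le_mul_of_nonneg_right (min_le_left _ _) hk0
          refine le_trans (le_of_eq ?_) (h1.trans h2)
          congr 2 <;> exact Finset.sum_congr rfl (fun τ _ => mul_comm _ _))
    have hy0 : ∑ τ, y ⟨v0, τ⟩ = k := by
      rw [sum_w (T := fun v => (A v).T) v0] at hy2
      exact hy2
    have hyv : ∀ v, ∑ τ, y ⟨v, τ⟩ = k := by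
      intro v
      have h1 := hy3 (Sum.inl v)
      rw [hMl v (fun i => (y i : ℝ))] at h1
      have h2 : (∑ τ, (y ⟨v0, τ⟩ : ℝ)) = k := by exact_mod_cast hy0
      have h3 : (∑ τ, (y ⟨v, τ⟩ : ℝ)) = k := by linarith
      exact_mod_cast h3
    choose θ hθ1 hθ2 using fun v => hL v k (hk1 v) (ψ v) (fun τ => y ⟨v, τ⟩)
      (fun τ => hy1 ⟨v, τ⟩) (hyv v)
      (fun τ => (hy4 ⟨v, τ⟩).trans (mul_le_mul_of_nonneg_right (hηle v) hk0))
    refine ⟨θ, fun e => ?_, hθ2⟩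
    funext x
    rw [(B e).hv_eq, (B' e).hv_eq, hθ1, hθ1]
    have h1 := hy3 (Sum.inr ⟨e, x⟩)
    rw [hMr ⟨e, x⟩ (fun i => (y i : ℝ))] at h1
    have h2 : ∀ τ, (y ⟨s e, τ⟩ : ℝ) * (B e).ρ τ x = (B e).ρ τ x * y ⟨s e, τ⟩ :=
      fun τ => mul_comm _ _
    have h3 : ∀ τ, (y ⟨t e, τ⟩ : ℝ) * (B' e).ρ τ x = (B' e).ρ τ x * y ⟨t e, τ⟩ :=
      fun τ => mul_comm _ _
    simp only [h2, h3]
    exact sub_eq_zero.mp h1

include hm B B' in
theorem matchingG [Nonempty V]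
    (hconj : ∀ e k (π : H e →* 𝒞.C k) (u : 𝒞.C k),
      (D e).hv k ((MulAut.conj u).toMonoidHom.comp π) = (D e).hv k π)
    (F : ∀ v, Finset (G v)) (ε : ℝ) (hε : 0 < ε) :
    ∃ δ : ℝ, 0 < δ ∧ ∀ k (ψ : ∀ v, G v →* 𝒞.C k) (τ : E → 𝒞.C k),
      (∀ e h, 𝒞.d k (τ e * ψ (s e) (f e h) * (τ e)⁻¹) (ψ (t e) (f' e h)) ≤ δ) →
      ∃ (θ : ∀ v, G v →* 𝒞.C k) (τ' : E → 𝒞.C k),
        (∀ e h, τ' e * θ (s e) (f e h) * (τ' e)⁻¹ = θ (t e) (f' e h)) ∧
        (∀ v, ∀ g ∈ F v, 𝒞.d k (θ v g) (ψ v g) ≤ ε) ∧ ∀ e, 𝒞.d k (τ' e) (τ e) ≤ ε := by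
  classical
  choose δm' hδm' hmt using fun e => (D e).mtch ε hε
  obtain ⟨δm, hδm, hδmle⟩ := exists_pos_le δm' hδm'
  -- the elements to be controlled
  have hfin1 : ∀ v, {g : G v | ∃ e h, (⟨s e, f e h⟩ : Σ v, G v) = ⟨v, g⟩}.Finite := by
    intro v
    have h1 : (Set.range (fun q : Σ e, H e => (⟨s q.1, f q.1 q.2⟩ : Σ v, G v))).Finite :=
      Set.finite_range _
    refine (h1.preimage (f := fun g : G v => (⟨v, g⟩ : Σ v, G v))
      sigma_mk_injective.injOn).subset ?_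
    rintro g ⟨e, h, hg⟩
    exact ⟨⟨e, h⟩, hg⟩
  have hfin2 : ∀ v, {g : G v | ∃ e h, (⟨t e, f' e h⟩ : Σ v, G v) = ⟨v, g⟩}.Finite := by
    intro v
    have h1 : (Set.range (fun q : Σ e, H e => (⟨t q.1, f' q.1 q.2⟩ : Σ v, G v))).Finite :=
      Set.finite_range _
    refine (h1.preimage (f := fun g : G v => (⟨v, g⟩ : Σ v, G v))
      sigma_mk_injective.injOn).subset ?_
    rintro g ⟨e, h, hg⟩
    exact ⟨⟨e, h⟩, hg⟩
  set εa : ℝ := min ε (δm / 3) with hεa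
  have hεapos : 0 < εa := lt_min hε (by linarith)
  have hεa1 : εa ≤ ε := min_le_left _ _
  have hεa2 : εa ≤ δm / 3 := min_le_right _ _
  obtain ⟨δv, hδv, hvec⟩ := vectors hm s t f f' D A B B'
    (fun v => F v ∪ ((hfin1 v).toFinset ∪ (hfin2 v).toFinset)) εa hεapos
  choose δc' hδc' hclose using fun e => (D e).close δv hδv
  obtain ⟨δc, hδc, hδcle⟩ := exists_pos_le δc' hδc'
  refine ⟨min δc (δm / 3), lt_min hδc (by linarith), ?_⟩
  intro k ψ τ hψ
  obtain ⟨θ, hθ1, hθ2⟩ := hvec k ψ (fun e x => by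
    have h1 := hclose e k ((MulAut.conj (τ e)).toMonoidHom.comp ((ψ (s e)).comp (f e)))
      ((ψ (t e)).comp (f' e))
      (fun h => (hψ e h).trans ((min_le_left _ _).trans (hδcle e))) x
    rw [hconj] at h1
    exact h1)
  have hθs : ∀ e h, 𝒞.d k (θ (s e) (f e h)) (ψ (s e) (f e h)) ≤ εa := by
    intro e h
    refine hθ2 (s e) _ ?_
    rw [Finset.mem_union, Finset.mem_union, Set.Finite.mem_toFinset]
    exact Or.inr (Or.inl ⟨e, h, rfl⟩)
  have hθt : ∀ e h, 𝒞.d k (θ (t e) (f' e h)) (ψ (t e) (f' e h)) ≤ εa := by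
    intro e h
    refine hθ2 (t e) _ ?_
    rw [Finset.mem_union, Finset.mem_union, Set.Finite.mem_toFinset, Set.Finite.mem_toFinset]
    exact Or.inr (Or.inr ⟨e, h, rfl⟩)
  have hex : ∀ e, ∃ u : 𝒞.C k, 𝒞.d k u 1 ≤ ε ∧
      ∀ h, u * θ (t e) (f' e h) * u⁻¹ = τ e * θ (s e) (f e h) * (τ e)⁻¹ := by
    intro e
    obtain ⟨u, hu, huH⟩ := hmt e k
      ((MulAut.conj (τ e)).toMonoidHom.comp ((θ (s e)).comp (f e)))
      ((θ (t e)).comp (f' e)) (by rw [hconj]; exact hθ1 e) (fun h => by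
        refine le_trans ?_ (hδmle e)
        show 𝒞.d k (τ e * θ (s e) (f e h) * (τ e)⁻¹) (θ (t e) (f' e h)) ≤ δm
        have e1 := hθs e h
        have e2 := hθt e h
        have e3 := (hψ e h).trans (min_le_right _ _)
        have e4 : 𝒞.d k (τ e * θ (s e) (f e h) * (τ e)⁻¹) (τ e * ψ (s e) (f e h) * (τ e)⁻¹) ≤
            εa := by
          rw [hm.right, hm.left]; exact e1
        have e5 := hm.tri k (τ e * θ (s e) (f e h) * (τ e)⁻¹)
          (τ e * ψ (s e) (f e h) * (τ e)⁻¹) (θ (t e) (f' e h))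
        have e6 := hm.tri k (τ e * ψ (s e) (f e h) * (τ e)⁻¹) (ψ (t e) (f' e h))
          (θ (t e) (f' e h))
        rw [hm.symm k (ψ (t e) (f' e h)) (θ (t e) (f' e h))] at e6
        linarith)
    exact ⟨u, hu, huH⟩
  choose u hu huH using hex
  refine ⟨θ, fun e => (u e)⁻¹ * τ e, fun e h => ?_, fun v g hg => ?_, fun e => ?_⟩
  · have h1 := huH e h
    have h2 : (u e)⁻¹ * τ e * θ (s e) (f e h) * ((u e)⁻¹ * τ e)⁻¹ =
        (u e)⁻¹ * (τ e * θ (s e) (f e h) * (τ e)⁻¹) * u e := by group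
    rw [h2, ← h1]
    group
  · exact (hθ2 v g (Finset.mem_union_left _ hg)).trans hεa1
  · have h1 := hm.right k (τ e) (u e)⁻¹ 1
    rw [one_mul] at h1
    have h2 := hm.inv k (u e) 1
    rw [inv_one] at h2
    show 𝒞.d k ((u e)⁻¹ * τ e) (τ e) ≤ ε
    rw [h1, h2]
    exact hu e

end

end Pool.Agent.H828.GoG
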