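import Pool.Agent.H828.GoG.Abs

set_option autoImplicit false

/-! Finite graphs of groups, the universal group and the fundamental group. -/

namespace Pool.Agent.H828.GoG

open Filter Topology Pool.Agent.H698R3.Amalg

/-- A finite nonempty graph of groups: finite sets `V` of vertices and `E` of oriented edges (loops
and multiple edges are allowed), a group `G v` for every vertex `v`, a group `H e` for every
edge `e`, and homomorphisms of `H e` to the groups of the source and of the target of `e`. -/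
structure GraphOfGroups where
  V : Type
  E : Type
  finV : Fintype V
  neV : Nonempty V
  finE : Fintype E
  G : V → Type
  grpG : ∀ v, Group (G v)
  H : E → Type
  grpH : ∀ e, Group (H e)
  src : E → V
  tgt : E → V
  f : ∀ e, H e →* G (src e)
  f' : ∀ e, H e →* G (tgt e)

attribute [instance] GraphOfGroups.finV GraphOfGroups.neV GraphOfGroups.finE
  GraphOfGroups.grpG GraphOfGroups.grpH

variable (𝒢 : GraphOfGroups)

/-- The free product of all vertex groups and of the free group on the edges. -/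
def Gen : Type := Monoid.Coprod (Monoid.CoprodI 𝒢.G) (FreeGroup 𝒢.E)

instance instGroupGen : Group (Gen 𝒢) :=
  @Monoid.Coprod.instGroup (Monoid.CoprodI 𝒢.G) (FreeGroup 𝒢.E) _ _

variable {𝒢}

/-- The element of the free product given by an element of a vertex group. -/
def gv (v : 𝒢.V) : 𝒢.G v →* Gen 𝒢 :=
  (Monoid.Coprod.inl : Monoid.CoprodI 𝒢.G →*
    Monoid.Coprod (Monoid.CoprodI 𝒢.G) (FreeGroup 𝒢.E)).comp Monoid.CoprodI.of

/-- The free generator of an edge. -/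
def ge (e : 𝒢.E) : Gen 𝒢 :=
  (Monoid.Coprod.inr : FreeGroup 𝒢.E →*
    Monoid.Coprod (Monoid.CoprodI 𝒢.G) (FreeGroup 𝒢.E)) (FreeGroup.of e)

/-- The element of the free product given by the image of `h` at the source of `e`. -/
def hs (e : 𝒢.E) (h : 𝒢.H e) : Gen 𝒢 := gv (𝒢.src e) (𝒢.f e h)

/-- The element of the free product given by the image of `h` at the target of `e`. -/
def ht (e : 𝒢.E) (h : 𝒢.H e) : Gen 𝒢 := gv (𝒢.tgt e) (𝒢.f' e h)

variable (𝒢)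

/-- The relators `t_e f(h) t_e⁻¹ f'(h)⁻¹` for all edges `e` and `h` in the edge group. -/
def rels : Set (Gen 𝒢) :=
  {x | ∃ (e : 𝒢.E) (h : 𝒢.H e), x = ge e * hs e h * (ge e)⁻¹ * (ht e h)⁻¹}

/-- The universal group (Serre's `F(𝒢)`) of a graph of groups: it is generated by the vertex
groups and one stable letter `t_e` for every edge, with relations `t_e f(h) t_e⁻¹ = f'(h)`. -/
def UGroup : Type := Gen 𝒢 ⧸ Subgroup.normalClosure (rels 𝒢)

instance instGroupU : Group (UGroup 𝒢) :=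
  @QuotientGroup.Quotient.group (Gen 𝒢) _ (Subgroup.normalClosure (rels 𝒢)) _

/-- The projection to the universal group. -/
def proj : Gen 𝒢 →* UGroup 𝒢 := QuotientGroup.mk' (Subgroup.normalClosure (rels 𝒢))

variable {𝒢}

/-- The homomorphism of a vertex group to the universal group. -/
def ι (v : 𝒢.V) : 𝒢.G v →* UGroup 𝒢 := (proj 𝒢).comp (gv v)

/-- The stable letter of an edge. -/
def st (e : 𝒢.E) : UGroup 𝒢 := proj 𝒢 (ge e)

theorem proj_eq_one {x : Gen 𝒢} (h : x ∈ rels 𝒢) : proj 𝒢 x = 1 :=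
  (QuotientGroup.eq_one_iff (N := Subgroup.normalClosure (rels 𝒢)) x).mpr
    (Subgroup.subset_normalClosure h)

theorem rel (e : 𝒢.E) (h : 𝒢.H e) :
    st e * ι (𝒢.src e) (𝒢.f e h) * (st e)⁻¹ = ι (𝒢.tgt e) (𝒢.f' e h) := by
  rw [← mul_inv_eq_one]
  show proj 𝒢 (ge e) * proj 𝒢 (hs e h) * (proj 𝒢 (ge e))⁻¹ * (proj 𝒢 (ht e h))⁻¹ = 1
  rw [← map_inv, ← map_inv, ← map_mul, ← map_mul, ← map_mul]
  exact proj_eq_one ⟨e, h, rfl⟩

/-- The homomorphism of the free product. -/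
def pre {M : Type} [Group M] (θ : ∀ v, 𝒢.G v →* M) (c : 𝒢.E → M) : Gen 𝒢 →* M :=
  (Monoid.Coprod.lift (Monoid.CoprodI.lift θ) (FreeGroup.lift c) :
    Monoid.Coprod (Monoid.CoprodI 𝒢.G) (FreeGroup 𝒢.E) →* M)

theorem pre_gv {M : Type} [Group M] (θ : ∀ v, 𝒢.G v →* M) (c : 𝒢.E → M) (v : 𝒢.V)
    (g : 𝒢.G v) : pre θ c (gv v g) = θ v g := by
  show Monoid.Coprod.lift (Monoid.CoprodI.lift θ) (FreeGroup.lift c)
    (Monoid.Coprod.inl (Monoid.CoprodI.of g)) = θ v g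
  rw [Monoid.Coprod.lift_apply_inl, Monoid.CoprodI.lift_of]

theorem pre_ge {M : Type} [Group M] (θ : ∀ v, 𝒢.G v →* M) (c : 𝒢.E → M) (e : 𝒢.E) :
    pre θ c (ge e) = c e := by
  show Monoid.Coprod.lift (Monoid.CoprodI.lift θ) (FreeGroup.lift c)
    (Monoid.Coprod.inr (FreeGroup.of e)) = c e
  rw [Monoid.Coprod.lift_apply_inr, FreeGroup.lift_apply_of]

theorem normalClosure_le {M : Type} [Group M] (θ : ∀ v, 𝒢.G v →* M) (c : 𝒢.E → M)
    (hc : ∀ e h, c e * θ (𝒢.src e) (𝒢.f e h) * (c e)⁻¹ = θ (𝒢.tgt e) (𝒢.f' e h)) :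
    Subgroup.normalClosure (rels 𝒢) ≤ (pre θ c).ker := by
  refine Subgroup.normalClosure_le_normal ?_
  rintro _ ⟨e, h, rfl⟩
  show pre θ c _ = 1
  rw [map_mul, map_inv, mul_inv_eq_one, map_mul, map_mul, map_inv, pre_ge]
  show c e * pre θ c (gv (𝒢.src e) (𝒢.f e h)) * (c e)⁻¹ = pre θ c (gv (𝒢.tgt e) (𝒢.f' e h))
  rw [pre_gv, pre_gv]
  exact hc e h

/-- The universal property. -/
def lift {M : Type} [Group M] (θ : ∀ v, 𝒢.G v →* M) (c : 𝒢.E → M)
    (hc : ∀ e h, c e * θ (𝒢.src e) (𝒢.f e h) * (c e)⁻¹ = θ (𝒢.tgt e) (𝒢.f' e h)) :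
    UGroup 𝒢 →* M :=
  (QuotientGroup.lift (Subgroup.normalClosure (rels 𝒢)) (pre θ c)
    (fun _ hx => normalClosure_le θ c hc hx) :
    Gen 𝒢 ⧸ Subgroup.normalClosure (rels 𝒢) →* M)

@[simp] theorem lift_ι {M : Type} [Group M] (θ : ∀ v, 𝒢.G v →* M) (c : 𝒢.E → M)
    (hc : ∀ e h, c e * θ (𝒢.src e) (𝒢.f e h) * (c e)⁻¹ = θ (𝒢.tgt e) (𝒢.f' e h))
    (v : 𝒢.V) (g : 𝒢.G v) : lift θ c hc (ι v g) = θ v g :=
  pre_gv θ c v g

@[simp] theorem lift_st {M : Type} [Group M] (θ : ∀ v, 𝒢.G v →* M) (c : 𝒢.E → M)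
    (hc : ∀ e h, c e * θ (𝒢.src e) (𝒢.f e h) * (c e)⁻¹ = θ (𝒢.tgt e) (𝒢.f' e h))
    (e : 𝒢.E) : lift θ c hc (st e) = c e :=
  pre_ge θ c e

theorem proj_surj : Function.Surjective (proj 𝒢) :=
  QuotientGroup.mk'_surjective (Subgroup.normalClosure (rels 𝒢))

theorem gen_induct (S : Subgroup (Gen 𝒢)) (h1 : ∀ v g, gv v g ∈ S) (h2 : ∀ e, ge e ∈ S) :
    ∀ x : Gen 𝒢, x ∈ S := by
  have key : ∀ x : Monoid.Coprod (Monoid.CoprodI 𝒢.G) (FreeGroup 𝒢.E),
      (show Gen 𝒢 from x) ∈ S := by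
    intro x
    induction x using Monoid.Coprod.induction_on with
    | inl x =>
      induction x using Monoid.CoprodI.induction_on with
      | one => rw [map_one]; exact S.one_mem
      | of v g => exact h1 v g
      | mul x y hx hy => rw [map_mul]; exact S.mul_mem hx hy
    | inr x =>
      induction x using FreeGroup.induction_on with
      | C1 => rw [map_one]; exact S.one_mem
      | of e => exact h2 e
      | inv_of e he => rw [map_inv]; exact S.inv_mem he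
      | mul x y hx hy => rw [map_mul]; exact S.mul_mem hx hy
    | mul x y hx hy => exact S.mul_mem hx hy
  exact key

/-- The universal group is generated by the vertex groups and the stable letters. -/
theorem induct (S : Subgroup (UGroup 𝒢)) (h1 : ∀ v g, ι v g ∈ S) (h2 : ∀ e, st e ∈ S) :
    ∀ x, x ∈ S := by
  intro x
  obtain ⟨x, rfl⟩ := proj_surj x
  exact gen_induct (S.comap (proj 𝒢)) h1 h2 x

/-- `PathElt u v x`: the element `x` of the universal group is the value of a path from `u` to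
`v`, that is, a product of elements of vertex groups and of letters `t_e^{±1}` whose end points
match (`t_e` leads from the target to the source of `e`). -/
inductive PathElt : 𝒢.V → 𝒢.V → UGroup 𝒢 → Prop
  | vertex (v : 𝒢.V) (g : 𝒢.G v) : PathElt v v (ι v g)
  | edge (e : 𝒢.E) : PathElt (𝒢.tgt e) (𝒢.src e) (st e)
  | edgeInv (e : 𝒢.E) : PathElt (𝒢.src e) (𝒢.tgt e) (st e)⁻¹
  | trans (u v w : 𝒢.V) (x y : UGroup 𝒢) : PathElt u v x → PathElt v w y → PathElt u w (x * y)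

theorem PathElt.inv {u v : 𝒢.V} {x : UGroup 𝒢} (h : PathElt u v x) : PathElt v u x⁻¹ := by
  induction h with
  | vertex v g => rw [← map_inv]; exact PathElt.vertex v _
  | edge e => exact PathElt.edgeInv e
  | edgeInv e => rw [inv_inv]; exact PathElt.edge e
  | trans u v w x y _ _ hx hy => rw [mul_inv_rev]; exact PathElt.trans _ _ _ _ _ hy hx

theorem PathElt.one (v : 𝒢.V) : PathElt v v (1 : UGroup 𝒢) := by
  rw [← map_one (ι v)]; exact PathElt.vertex v 1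

/-- The fundamental group of the graph of groups at the vertex `v0`: all values of closed paths
at `v0`, a subgroup of the universal group. -/
def pi1 (𝒢 : GraphOfGroups) (v0 : 𝒢.V) : Subgroup (UGroup 𝒢) where
  carrier := {x | PathElt v0 v0 x}
  mul_mem' := fun {x y} hx hy => PathElt.trans v0 v0 v0 x y hx hy
  one_mem' := PathElt.one v0
  inv_mem' := fun {_} hx => PathElt.inv hx

theorem mem_pi1 {v0 : 𝒢.V} {x : UGroup 𝒢} : x ∈ pi1 𝒢 v0 ↔ PathElt v0 v0 x := Iff.rfl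

/-- The fundamental group is a retract of the universal group. -/
theorem exists_retraction (v0 : 𝒢.V) :
    ∃ r : UGroup 𝒢 →* pi1 𝒢 v0, r.comp (pi1 𝒢 v0).subtype = MonoidHom.id _ := by
  classical
  let R : 𝒢.V → Prop := fun v => ∃ x, PathElt v0 v x
  have hγ : ∃ γ : 𝒢.V → UGroup 𝒢, γ v0 = 1 ∧ ∀ v, R v → PathElt v0 v (γ v) := by
    refine ⟨fun v => if v = v0 then 1 else if h : R v then h.choose else 1, by simp, ?_⟩
    intro v hv
    by_cases h : v = v0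
    · subst h
      simpa using PathElt.one v
    · simp only [h, if_false, hv, dif_pos]
      exact hv.choose_spec
  obtain ⟨γ, hγ0, hγ⟩ := hγ
  have hR : ∀ e, R (𝒢.src e) ↔ R (𝒢.tgt e) := by
    intro e
    constructor
    · rintro ⟨x, hx⟩
      exact ⟨_, PathElt.trans _ _ _ _ _ hx (PathElt.edgeInv e)⟩
    · rintro ⟨x, hx⟩
      exact ⟨_, PathElt.trans _ _ _ _ _ hx (PathElt.edge e)⟩
  have hR0 : R v0 := ⟨1, PathElt.one v0⟩
  let θ : ∀ v, 𝒢.G v →* UGroup 𝒢 := fun v =>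
    if R v then (MulAut.conj (γ v)).toMonoidHom.comp (ι v) else 1
  have hθ1 : ∀ v, R v → ∀ g, θ v g = γ v * ι v g * (γ v)⁻¹ := by
    intro v hv g
    show (if R v then (MulAut.conj (γ v)).toMonoidHom.comp (ι v) else 1 : 𝒢.G v →* UGroup 𝒢) g = _
    rw [if_pos hv]
    rfl
  have hθ2 : ∀ v, ¬ R v → ∀ g, θ v g = 1 := by
    intro v hv g
    show (if R v then (MulAut.conj (γ v)).toMonoidHom.comp (ι v) else 1 : 𝒢.G v →* UGroup 𝒢) g = _
    rw [if_neg hv]
    rfl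
  let c : 𝒢.E → UGroup 𝒢 := fun e =>
    if R (𝒢.src e) then γ (𝒢.tgt e) * st e * (γ (𝒢.src e))⁻¹ else 1
  have hc1 : ∀ e, R (𝒢.src e) → c e = γ (𝒢.tgt e) * st e * (γ (𝒢.src e))⁻¹ :=
    fun e he => if_pos he
  have hc2 : ∀ e, ¬ R (𝒢.src e) → c e = 1 := fun e he => if_neg he
  let ρ : UGroup 𝒢 →* UGroup 𝒢 := lift θ c (by
    intro e h
    by_cases he : R (𝒢.src e)
    · rw [hθ1 _ he, hθ1 _ ((hR e).mp he), hc1 e he, ← rel e h]
      group
    · rw [hθ2 _ he, hθ2 _ (fun h => he ((hR e).mpr h)), hc2 e he]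
      group)
  have hρι : ∀ v g, ρ (ι v g) = θ v g := fun v g => lift_ι _ _ _ v g
  have hρst : ∀ e, ρ (st e) = c e := fun e => lift_st _ _ _ e
  have hmem : ∀ x, ρ x ∈ pi1 𝒢 v0 := by
    intro x
    refine induct ((pi1 𝒢 v0).comap ρ) ?_ ?_ x
    · intro v g
      rw [Subgroup.mem_comap, hρι]
      by_cases hv : R v
      · rw [hθ1 v hv]
        exact PathElt.trans _ v _ _ _ (PathElt.trans _ v _ _ _ (hγ v hv) (PathElt.vertex v g))
          (hγ v hv).inv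
      · rw [hθ2 v hv]; exact (pi1 𝒢 v0).one_mem
    · intro e
      rw [Subgroup.mem_comap, hρst]
      by_cases he : R (𝒢.src e)
      · rw [hc1 e he]
        exact PathElt.trans _ (𝒢.src e) _ _ _
          (PathElt.trans _ (𝒢.tgt e) _ _ _ (hγ _ ((hR e).mp he)) (PathElt.edge e))
          (hγ _ he).inv
      · rw [hc2 e he]; exact (pi1 𝒢 v0).one_mem
  have hpath : ∀ u v x, PathElt u v x → R u → R v ∧ ρ x = γ u * x * (γ v)⁻¹ := by
    intro u v x h
    induction h with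
    | vertex v g =>
      intro hv
      exact ⟨hv, by rw [hρι, hθ1 v hv]⟩
    | edge e =>
      intro he
      have he' := (hR e).mpr he
      exact ⟨he', by rw [hρst, hc1 e he']⟩
    | edgeInv e =>
      intro he
      refine ⟨(hR e).mp he, ?_⟩
      rw [map_inv, hρst, hc1 e he]
      group
    | trans u v w x y _ _ hx hy =>
      intro hu
      obtain ⟨hv, h1⟩ := hx hu
      obtain ⟨hw, h2⟩ := hy hv
      refine ⟨hw, ?_⟩
      rw [map_mul, h1, h2]
      group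
  refine ⟨ρ.codRestrict (pi1 𝒢 v0) hmem, ?_⟩
  ext x
  show ρ x.1 = x.1
  obtain ⟨-, h⟩ := hpath v0 v0 x.1 x.2 hR0
  rw [h, hγ0]
  group

/-- Retracts of stable groups are stable. -/
theorem stable_retract {𝒞 : Cls} {P F : Type} [Group P] [Group F] (i : P →* F) (r : F →* P)
    (hri : r.comp i = MonoidHom.id P) (hF : 𝒞.Stable F) : 𝒞.Stable P := by
  intro k φ hφ
  have h1 : ∀ a, r (i a) = a := fun a => DFunLike.congr_fun hri a
  obtain ⟨ψ, hψ⟩ := hF k (fun n x => φ n (r x)) (fun a b => by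
    simpa only [map_mul] using hφ (r a) (r b))
  refine ⟨fun n => (ψ n).comp i, fun a => ?_⟩
  have h2 := hψ (i a)
  simp only [h1] at h2
  exact h2

section stable

variable {𝒞 : Cls} (hm : 𝒞.IsMetric)

include hm in
/-- The elements at which an asymptotic homomorphism is close to a sequence of homomorphisms form
a subgroup. -/
theorem close_all {F : Type} [Group F] (k : ℕ → ℕ) (φ : ∀ n, F → 𝒞.C (k n))
    (hφ : ∀ a b : F, Tendsto (fun n => 𝒞.d (k n) (φ n a * φ n b) (φ n (a * b))) atTop (𝓝 0))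
    (Θ : ∀ n, F →* 𝒞.C (k n)) :
    ∃ S : Subgroup F, ∀ a, a ∈ S ↔ Tendsto (fun n => 𝒞.d (k n) (φ n a) (Θ n a)) atTop (𝓝 0) := by
  have h1 : Tendsto (fun n => 𝒞.d (k n) (φ n 1) 1) atTop (𝓝 0) := by
    refine (hφ 1 1).congr fun n => ?_
    rw [mul_one]
    have := hm.left (k n) (φ n 1) (φ n 1) 1
    rwa [mul_one] at this
  refine ⟨{ carrier := {a | Tendsto (fun n => 𝒞.d (k n) (φ n a) (Θ n a)) atTop (𝓝 0)}
            mul_mem' := ?_
            one_mem' := ?_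
            inv_mem' := ?_ }, fun a => Iff.rfl⟩
  · intro x y hx hy
    have hx' : Tendsto (fun n => 𝒞.d (k n) (φ n x) (Θ n x)) atTop (𝓝 0) := hx
    have hy' : Tendsto (fun n => 𝒞.d (k n) (φ n y) (Θ n y)) atTop (𝓝 0) := hy
    have t := (hφ x y).add (hx'.add hy')
    rw [add_zero, add_zero] at t
    refine squeeze_zero (fun n => hm.nonneg _ _ _) (fun n => ?_) t
    rw [map_mul (Θ n)]
    have h1 := hm.tri (k n) (φ n (x * y)) (φ n x * φ n y) (Θ n x * Θ n y)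
    have h2 := hm.mul_mul (k n) (φ n x) (Θ n x) (φ n y) (Θ n y)
    rw [hm.symm (k n) (φ n (x * y)) (φ n x * φ n y)] at h1
    linarith
  · show Tendsto (fun n => 𝒞.d (k n) (φ n 1) (Θ n 1)) atTop (𝓝 0)
    refine h1.congr fun n => ?_
    rw [map_one]
  · intro x hx
    have hx' : Tendsto (fun n => 𝒞.d (k n) (φ n x) (Θ n x)) atTop (𝓝 0) := hx
    have t := ((hφ x⁻¹ x).add h1).add hx'
    rw [add_zero, add_zero] at t
    show Tendsto (fun n => 𝒞.d (k n) (φ n x⁻¹) (Θ n x⁻¹)) atTop (𝓝 0)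
    refine squeeze_zero (fun n => hm.nonneg _ _ _) (fun n => ?_) t
    rw [map_inv, inv_mul_cancel]
    -- compare `φ x⁻¹`, `φ x⁻¹ φ x (φ x)⁻¹`, `(φ x)⁻¹` and `(Θ x)⁻¹`
    have e1 := hm.tri (k n) (φ n x⁻¹) (φ n x)⁻¹ (Θ n x)⁻¹
    rw [hm.inv] at e1
    have e2 := hm.right (k n) (φ n x) (φ n x⁻¹) (φ n x)⁻¹
    rw [inv_mul_cancel] at e2
    have e3 := hm.tri (k n) (φ n x⁻¹ * φ n x) (φ n 1) 1
    linarith

include hm in
/-- The universal group of a finite graph of groups is stable if matching is possible. -/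
theorem stable_UGroup (hcount : ∀ v, Countable (𝒢.G v)) (hs : ∀ v, 𝒞.Stable (𝒢.G v))
    (hmat : ∀ (F : ∀ v, Finset (𝒢.G v)) (ε : ℝ), 0 < ε →
      ∃ δ : ℝ, 0 < δ ∧ ∀ k (ψ : ∀ v, 𝒢.G v →* 𝒞.C k) (τ : 𝒢.E → 𝒞.C k),
      (∀ e h, 𝒞.d k (τ e * ψ (𝒢.src e) (𝒢.f e h) * (τ e)⁻¹) (ψ (𝒢.tgt e) (𝒢.f' e h)) ≤ δ) →
      ∃ (θ : ∀ v, 𝒢.G v →* 𝒞.C k) (τ' : 𝒢.E → 𝒞.C k),
        (∀ e h, τ' e * θ (𝒢.src e) (𝒢.f e h) * (τ' e)⁻¹ = θ (𝒢.tgt e) (𝒢.f' e h)) ∧
        (∀ v, ∀ g ∈ F v, 𝒞.d k (θ v g) (ψ v g) ≤ ε) ∧ ∀ e, 𝒞.d k (τ' e) (τ e) ≤ ε)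
    (hfin : ∀ e, Finite (𝒢.H e)) :
    𝒞.Stable (UGroup 𝒢) := by
  classical
  intro k φ hφ
  choose ψ hψ using fun v => hs v k (fun n g => φ n (ι v g)) (fun a b => by
    simpa only [map_mul] using hφ (ι v a) (ι v b))
  choose en hen using fun v => exists_surjective_nat (𝒢.G v)
  let A : ℕ → ℕ → Prop := fun m n => ∃ (θ : ∀ v, 𝒢.G v →* 𝒞.C (k n)) (τ' : 𝒢.E → 𝒞.C (k n)),
    (∀ e h, τ' e * θ (𝒢.src e) (𝒢.f e h) * (τ' e)⁻¹ = θ (𝒢.tgt e) (𝒢.f' e h)) ∧
    (∀ v, ∀ j < m, 𝒞.d (k n) (θ v (en v j)) (ψ v n (en v j)) ≤ 1 / ((m : ℝ) + 1)) ∧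
    (0 < m → ∀ e, 𝒞.d (k n) (τ' e) (φ n (st e)) ≤ 1 / ((m : ℝ) + 1))
  -- the approximate relation
  have hclose : ∀ e (h : 𝒢.H e), Tendsto (fun n => 𝒞.d (k n)
      (φ n (st e) * ψ (𝒢.src e) n (𝒢.f e h) * (φ n (st e))⁻¹)
      (ψ (𝒢.tgt e) n (𝒢.f' e h))) atTop (𝓝 0) := by
    intro e h
    have t1 := hφ (st e) (ι (𝒢.src e) (𝒢.f e h))
    have t2 := hφ (ι (𝒢.tgt e) (𝒢.f' e h)) (st e)
    have t3 := hψ (𝒢.src e) (𝒢.f e h)
    have t4 := hψ (𝒢.tgt e) (𝒢.f' e h)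
    have t := (t1.add t2).add (t3.add t4)
    simp only [add_zero] at t
    have hrel : st e * ι (𝒢.src e) (𝒢.f e h) = ι (𝒢.tgt e) (𝒢.f' e h) * st e := by
      rw [← rel e h]; group
    rw [hrel] at t
    refine squeeze_zero (fun n => hm.nonneg _ _ _) (fun n => ?_) t
    have e0 := hm.right (k n) (φ n (st e))
      (φ n (st e) * ψ (𝒢.src e) n (𝒢.f e h) * (φ n (st e))⁻¹) (ψ (𝒢.tgt e) n (𝒢.f' e h))
    rw [inv_mul_cancel_right] at e0
    rw [← e0]
    have e1 := hm.tri (k n) (φ n (st e) * ψ (𝒢.src e) n (𝒢.f e h))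
      (φ n (st e) * φ n (ι (𝒢.src e) (𝒢.f e h))) (ψ (𝒢.tgt e) n (𝒢.f' e h) * φ n (st e))
    rw [hm.left, hm.symm (k n) (ψ (𝒢.src e) n (𝒢.f e h))] at e1
    have e2 := hm.tri (k n) (φ n (st e) * φ n (ι (𝒢.src e) (𝒢.f e h)))
      (φ n (ι (𝒢.tgt e) (𝒢.f' e h) * st e)) (ψ (𝒢.tgt e) n (𝒢.f' e h) * φ n (st e))
    have e3 := hm.tri (k n) (φ n (ι (𝒢.tgt e) (𝒢.f' e h) * st e))
      (φ n (ι (𝒢.tgt e) (𝒢.f' e h)) * φ n (st e)) (ψ (𝒢.tgt e) n (𝒢.f' e h) * φ n (st e))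
    rw [hm.right, hm.symm (k n) (φ n (ι (𝒢.tgt e) (𝒢.f' e h) * st e))
      (φ n (ι (𝒢.tgt e) (𝒢.f' e h)) * φ n (st e))] at e3
    linarith
  obtain ⟨κ, hκ1, hκ2⟩ := diag A
    (fun n => ⟨fun _ => 1, fun _ => 1, fun e h => by simp,
      fun v j hj => absurd hj (Nat.not_lt_zero j), fun h => absurd h (lt_irrefl 0)⟩)
    (by
      intro m
      obtain ⟨δ, hδ, hm'⟩ := hmat (fun v => (Finset.range m).image (en v))
        (1 / ((m : ℝ) + 1)) (by positivity)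
      have hev : ∀ᶠ n in atTop, ∀ q : Σ e, 𝒢.H e, 𝒞.d (k n)
          (φ n (st q.1) * ψ (𝒢.src q.1) n (𝒢.f q.1 q.2) * (φ n (st q.1))⁻¹)
          (ψ (𝒢.tgt q.1) n (𝒢.f' q.1 q.2)) ≤ δ := by
        rw [Filter.eventually_all]
        intro q
        exact ((hclose q.1 q.2).eventually (gt_mem_nhds hδ)).mono (fun n hn => le_of_lt hn)
      filter_upwards [hev] with n hn
      obtain ⟨θ, τ', h1, h2, h3⟩ := hm' (k n) (fun v => ψ v n) (fun e => φ n (st e))
        (fun e h => hn ⟨e, h⟩)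
      exact ⟨θ, τ', h1, fun v j hj => h2 v _ (Finset.mem_image_of_mem _ (Finset.mem_range.mpr hj)),
        fun _ => h3⟩)
  choose θ τ' hθ hθ1 hτ using hκ2
  have hinv : Tendsto (fun n => 1 / ((κ n : ℝ) + 1)) atTop (𝓝 0) :=
    tendsto_one_div_add_atTop_nhds_zero_nat.comp hκ1
  have hc : ∀ v (g : 𝒢.G v), Tendsto (fun n => 𝒞.d (k n) (θ n v g) (ψ v n g)) atTop (𝓝 0) := by
    intro v g
    obtain ⟨j, rfl⟩ := hen v g
    refine squeeze_zero' (Eventually.of_forall fun n => hm.nonneg _ _ _) ?_ hinv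
    filter_upwards [hκ1.eventually (eventually_gt_atTop j)] with n hn
    exact hθ1 n v j hn
  have hcτ : ∀ e, Tendsto (fun n => 𝒞.d (k n) (τ' n e) (φ n (st e))) atTop (𝓝 0) := by
    intro e
    refine squeeze_zero' (Eventually.of_forall fun n => hm.nonneg _ _ _) ?_ hinv
    filter_upwards [hκ1.eventually (eventually_gt_atTop 0)] with n hn
    exact hτ n hn e
  refine ⟨fun n => lift (θ n) (τ' n) (hθ n), ?_⟩
  obtain ⟨S, hS⟩ := close_all hm k φ hφ (fun n => lift (θ n) (τ' n) (hθ n))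
  intro a
  rw [← hS]
  refine induct S (fun v g => ?_) (fun e => ?_) a
  · rw [hS]
    refine squeeze_zero (fun n => hm.nonneg _ _ _) (fun n => ?_)
      (by simpa using (hψ v g).add (hc v g))
    rw [lift_ι]
    have h1 := hm.tri (k n) (φ n (ι v g)) (ψ v n g) (θ n v g)
    rw [hm.symm (k n) (ψ v n g) (θ n v g)] at h1
    exact h1
  · rw [hS]
    refine (hcτ e).congr fun n => ?_
    rw [lift_st, hm.symm]

end stable

end Pool.Agent.H828.GoG
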