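import Pool.Agent.H828.GoG.Grp
import Pool.Agent.H698R3.HsFinal

set_option autoImplicit false

/-! Stability of the fundamental groups of finite graphs of groups. -/

namespace Pool.Agent.H828.GoG

open Filter Topology Pool.Agent.H698R3.Amalg

section perm

open Equiv

variable {G : Type} [Group G] (N : Subgroup G) [N.Normal] [Finite N]

open Classical in
theorem memP (k : ℕ) (ψ : G →* Perm (Fin k)) (C : Set (Subgroup N)) :
    sP N k ψ C ∈ Siz N C := by
  have h := mem_Siz_of N (restr (X := Fin k) ψ (typ N ψ) (fun g x => typ_inv N ψ x g) C)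
    (fun y => by rw [typ_restr]; exact y.2)
  rw [Fintype.card_subtype] at h
  exact h

open Classical in
/-- The data for the class of symmetric groups. -/
noncomputable def NP (hst : permCls.Stable G) : NData permCls G where
  T := Set (Subgroup N)
  finT := inferInstance
  decT := inferInstance
  s k ψ C := sP N k ψ C
  Siz := Siz N
  mem := fun k ψ C => memP N k ψ C
  sum := fun k ψ => sumP N k ψ
  triv := {⊤}
  triv_mem := ⟨1, fun x => typ_trivial N x⟩
  real := fun k p hp hs => realP N k p hp hs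
  adjust := by
    intro F ε hε
    obtain ⟨η, hη, L0, h⟩ := adjustP N hst F ε hε
    exact ⟨η, hη, L0, fun k hk ψ t h1 h2 h3 => h k hk ψ t h1 h2 h3⟩

open Classical in
/-- The data of a finite subgroup for the class of symmetric groups. -/
noncomputable def FP {H : Type} [Group H] [Fintype H] (f : H →* G) (hst : permCls.Stable G)
    (hf : ∀ h, f h ∈ N) : FData (NP N hst) f (HP H) where
  ρ C K := rhoP f N hf C K
  triv_rho := by
    intro K
    have h := hv_eqP f N hf 1 (1 : G →* Perm (Fin 1)) K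
    have h1 : ∀ C : Set (Subgroup N), ((sP N 1 (1 : G →* Perm (Fin 1)) C : ℕ) : ℝ) *
        rhoP f N hf C K = if C = {⊤} then rhoP f N hf {⊤} K else 0 := by
      intro C
      rw [sP_triv]
      by_cases hC : C = {⊤}
      · subst hC; simp
      · simp [hC]
    simp only [h1] at h
    rw [Finset.sum_ite_eq' Finset.univ ({⊤} : Set (Subgroup N)) (fun _ => rhoP f N hf {⊤} K),
      if_pos (Finset.mem_univ _)] at h
    exact h.symm
  hv_eq := by
    intro k ψ K
    exact hv_eqP f N hf k ψ K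

open Classical in
theorem conjP {H : Type} [Group H] [Fintype H] (k : ℕ) (π : H →* permCls.C k)
    (u : permCls.C k) :
    (HP H).hv k ((MulAut.conj u).toMonoidHom.comp π) = (HP H).hv k π := by
  funext K
  show ((Finset.univ.filter (fun x : Fin k =>
      stH (X := Fin k) ((MulAut.conj u).toMonoidHom.comp π) x = K)).card : ℝ) =
    ((Finset.univ.filter (fun x : Fin k => stH (X := Fin k) π x = K)).card : ℝ)
  norm_cast
  let U : Perm (Fin k) := u
  let P : H →* Perm (Fin k) := π
  have key : ∀ x, stH (X := Fin k) ((MulAut.conj u).toMonoidHom.comp π) x =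
      stH (X := Fin k) π (U⁻¹ x) := by
    intro x
    ext h
    show (U * P h * U⁻¹) x = x ↔ P h (U⁻¹ x) = U⁻¹ x
    rw [Perm.mul_apply, Perm.mul_apply]
    constructor
    · intro h1
      rw [Perm.eq_inv_iff_eq]
      exact h1
    · intro h1
      rw [h1]
      exact U.apply_symm_apply x
  refine Finset.card_bij (fun x _ => U⁻¹ x) ?_ ?_ ?_
  · intro x hx
    rw [Finset.mem_filter] at hx ⊢
    refine ⟨Finset.mem_univ _, ?_⟩
    rw [← key x]
    exact hx.2
  · intro x _ y _ h
    exact (U⁻¹).injective h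
  · intro y hy
    rw [Finset.mem_filter] at hy
    refine ⟨U y, ?_, by simp⟩
    rw [Finset.mem_filter]
    refine ⟨Finset.mem_univ _, ?_⟩
    rw [key, show U⁻¹ (U y) = y from U.symm_apply_apply y]
    exact hy.2

end perm

section hs

open Matrix

variable {G : Type} [Group G] (N : Subgroup G) [N.Normal] [Finite N]

open Classical in
/-- The data for the class of unitary groups. -/
noncomputable def NH (hst : hsCls.Stable G) : NData hsCls G where
  T := {v // v ∈ Ty N}
  finT := inferInstance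
  decT := inferInstance
  s k ψ i := sH N ψ i.1
  Siz i := SizH N i.1
  mem := fun k ψ i => memH N ψ i.1
  sum := fun k ψ => sumH N ψ
  triv := ⟨fun _ => 1, (trivLab N).mem N 0⟩
  triv_mem := ⟨1, trivLab N⟩
  real := by
    intro k p hp hs
    obtain ⟨ψ, hψ⟩ := realH N k p hp hs
    exact ⟨ψ, funext hψ⟩
  adjust := by
    intro F ε hε
    obtain ⟨η, hη, L0, h⟩ := adjustH N hst F ε hε
    refine ⟨η, hη, L0, fun k hk ψ t h1 h2 h3 => ?_⟩
    obtain ⟨ψ', h4, h5⟩ := h k hk ψ t h1 h2 h3
    exact ⟨ψ', funext h4, h5⟩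

open Classical in
/-- The data of a finite subgroup for the class of unitary groups. -/
noncomputable def FH {H : Type} [Group H] [Fintype H] (f : H →* G) (hst : hsCls.Stable G)
    (hf : ∀ h, f h ∈ N) : FData (NH N hst) f (HH H) where
  ρ i e := rhoH f N hf i.1 e
  triv_rho := by
    rintro ⟨h, b⟩
    cases b
    · show (1 : ℂ).im = (trace (1 : Matrix (Fin 1) (Fin 1) ℂ)).im
      rw [Matrix.trace_one]; simp
    · show (1 : ℂ).re = (trace (1 : Matrix (Fin 1) (Fin 1) ℂ)).re
      rw [Matrix.trace_one]; simp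
  hv_eq := fun k ψ e => hv_eqH f N hf k ψ e

theorem conjH {H : Type} [Group H] [Fintype H] (k : ℕ) (π : H →* hsCls.C k)
    (u : hsCls.C k) :
    (HH H).hv k ((MulAut.conj u).toMonoidHom.comp π) = (HH H).hv k π := by
  let U : Matrix.unitaryGroup (Fin k) ℂ := u
  let P : H →* Matrix.unitaryGroup (Fin k) ℂ := π
  have key : ∀ h : H, trace (U * P h * U⁻¹).1 = trace (P h).1 := by
    intro h
    show trace (U.1 * (P h).1 * (U⁻¹).1) = trace (P h).1
    rw [Matrix.trace_mul_comm, ← Matrix.mul_assoc]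
    have h1 : (U⁻¹).1 * U.1 = 1 := by
      have h2 : U⁻¹ * U = 1 := inv_mul_cancel U
      exact congrArg Subtype.val h2
    rw [h1, Matrix.one_mul]
  funext e
  obtain ⟨h, b⟩ := e
  cases b
  · show (trace (U * P h * U⁻¹).1).im = (trace (P h).1).im
    rw [key]
  · show (trace (U * P h * U⁻¹).1).re = (trace (P h).1).re
    rw [key]

end hs

section common

open Pointwise

theorem exists_common {G : Type} [Group G] {ι : Type} [Finite ι] (K : ι → Subgroup G)
    (hn : ∀ i, (K i).Normal) (hf : ∀ i, Finite (K i)) :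
    ∃ N : Subgroup G, N.Normal ∧ Finite N ∧ ∀ i, K i ≤ N := by
  classical
  have := Fintype.ofFinite ι
  have key : ∀ S : Finset ι, ∃ N : Subgroup G, N.Normal ∧ Finite N ∧ ∀ i ∈ S, K i ≤ N := by
    intro S
    induction S using Finset.induction_on with
    | empty => exact ⟨⊥, inferInstance, inferInstance, fun i hi => absurd hi (Finset.notMem_empty i)⟩
    | insert j S _ ih =>
      obtain ⟨N, h1, h2, h3⟩ := ih
      have hj := hn j
      have hjf := hf j
      refine ⟨K j ⊔ N, inferInstance, ?_, ?_⟩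
      · have h4 : ((K j ⊔ N : Subgroup G) : Set G) = (K j : Set G) * (N : Set G) :=
          Subgroup.mul_normal (K j) N
        have h5 : ((K j ⊔ N : Subgroup G) : Set G).Finite := by
          rw [h4]
          exact Set.Finite.mul (Set.toFinite _) (Set.toFinite _)
        exact h5.to_subtype
      · intro i hi
        rw [Finset.mem_insert] at hi
        rcases hi with rfl | hi
        · exact le_sup_left
        · exact (h3 i hi).trans le_sup_right
  obtain ⟨N, h1, h2, h3⟩ := key Finset.univ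
  exact ⟨N, h1, h2, fun i => h3 i (Finset.mem_univ i)⟩

/-- The conditions on the edge groups: they are finite and their images in the vertex groups are
almost normal (have finitely many conjugates). -/
structure GoodEdges (𝒢 : GraphOfGroups) : Prop where
  fin : ∀ e, Finite (𝒢.H e)
  src : ∀ e, AlmostNormal (𝒢.f e).range
  tgt : ∀ e, AlmostNormal (𝒢.f' e).range

theorem exists_N {𝒢 : GraphOfGroups} (hg : GoodEdges 𝒢) :
    ∃ N : ∀ v, Subgroup (𝒢.G v), (∀ v, (N v).Normal) ∧ (∀ v, Finite (N v)) ∧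
      (∀ e h, 𝒢.f e h ∈ N (𝒢.src e)) ∧ (∀ e h, 𝒢.f' e h ∈ N (𝒢.tgt e)) := by
  have h1 : ∀ e, ∃ N : Subgroup (𝒢.G (𝒢.src e)), N.Normal ∧ Finite N ∧ ∀ h, 𝒢.f e h ∈ N := by
    intro e
    have := hg.fin e
    have hr : Finite (𝒢.f e).range :=
      Finite.of_surjective (𝒢.f e).rangeRestrict (𝒢.f e).rangeRestrict_surjective
    obtain ⟨N, h1, h2, h3⟩ := exists_finite_normal (𝒢.f e).range (hg.src e)
    exact ⟨N, h1, h2, fun h => h3 ⟨h, rfl⟩⟩
  have h2 : ∀ e, ∃ N : Subgroup (𝒢.G (𝒢.tgt e)), N.Normal ∧ Finite N ∧ ∀ h, 𝒢.f' e h ∈ N := by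
    intro e
    have := hg.fin e
    have hr : Finite (𝒢.f' e).range :=
      Finite.of_surjective (𝒢.f' e).rangeRestrict (𝒢.f' e).rangeRestrict_surjective
    obtain ⟨N, h1, h2, h3⟩ := exists_finite_normal (𝒢.f' e).range (hg.tgt e)
    exact ⟨N, h1, h2, fun h => h3 ⟨h, rfl⟩⟩
  have h3 : ∀ v, ∀ q : {e // 𝒢.src e = v}, ∃ N : Subgroup (𝒢.G v), N.Normal ∧ Finite N ∧
      ∀ h, (q.2 ▸ 𝒢.f q.1 h : 𝒢.G v) ∈ N := by
    rintro v ⟨e, rfl⟩
    exact h1 e
  have h4 : ∀ v, ∀ q : {e // 𝒢.tgt e = v}, ∃ N : Subgroup (𝒢.G v), N.Normal ∧ Finite N ∧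
      ∀ h, (q.2 ▸ 𝒢.f' q.1 h : 𝒢.G v) ∈ N := by
    rintro v ⟨e, rfl⟩
    exact h2 e
  have h5 : ∀ v, ∃ N : Subgroup (𝒢.G v), N.Normal ∧ Finite N ∧
      (∀ (q : {e // 𝒢.src e = v}) (h : 𝒢.H q.1), (q.2 ▸ 𝒢.f q.1 h : 𝒢.G v) ∈ N) ∧
      (∀ (q : {e // 𝒢.tgt e = v}) (h : 𝒢.H q.1), (q.2 ▸ 𝒢.f' q.1 h : 𝒢.G v) ∈ N) := by
    intro v
    choose N1 a1 a2 a3 using h3 v
    choose N2 b1 b2 b3 using h4 v
    obtain ⟨N, c1, c2, c3⟩ := exists_common
      (fun q : {e // 𝒢.src e = v} ⊕ {e // 𝒢.tgt e = v} => Sum.elim N1 N2 q)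
      (by rintro (q | q); exacts [a1 q, b1 q]) (by rintro (q | q); exacts [a2 q, b2 q])
    exact ⟨N, c1, c2, fun q h => c3 (Sum.inl q) (a3 q h), fun q h => c3 (Sum.inr q) (b3 q h)⟩
  choose N n1 n2 n3 n4 using h5
  exact ⟨N, n1, n2, fun e h => n3 (𝒢.src e) ⟨e, rfl⟩ h, fun e h => n4 (𝒢.tgt e) ⟨e, rfl⟩ h⟩

end common

theorem perm_UGroup (𝒢 : GraphOfGroups) (hg : GoodEdges 𝒢) (hc : ∀ v, Countable (𝒢.G v))
    (hs : ∀ v, PermutationStable (𝒢.G v)) : PermutationStable (UGroup 𝒢) := by
  classical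
  have hs' : ∀ v, permCls.Stable (𝒢.G v) := fun v => (permStable_iff _).mp (hs v)
  rw [permStable_iff]
  obtain ⟨N, n1, n2, n3, n4⟩ := exists_N hg
  have hfin : ∀ e, Finite (𝒢.H e) := hg.fin
  let _ : ∀ e, Fintype (𝒢.H e) := fun e => Fintype.ofFinite _
  refine stable_UGroup permCls_metric hc hs' (fun F ε hε => ?_) hfin
  exact matchingG permCls_metric 𝒢.src 𝒢.tgt 𝒢.f 𝒢.f' (fun e => HP (𝒢.H e))
    (fun v => NP (N v) (hs' v)) (fun e => FP (N _) (𝒢.f e) (hs' _) (n3 e))
    (fun e => FP (N _) (𝒢.f' e) (hs' _) (n4 e)) (fun e k π u => conjP k π u) F ε hε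

theorem hs_UGroup (𝒢 : GraphOfGroups) (hg : GoodEdges 𝒢) (hc : ∀ v, Countable (𝒢.G v))
    (hs : ∀ v, HilbertSchmidtStable (𝒢.G v)) : HilbertSchmidtStable (UGroup 𝒢) := by
  classical
  have hs' : ∀ v, hsCls.Stable (𝒢.G v) := fun v => (hsStable_iff _).mp (hs v)
  rw [hsStable_iff]
  obtain ⟨N, n1, n2, n3, n4⟩ := exists_N hg
  have hfin : ∀ e, Finite (𝒢.H e) := hg.fin
  let _ : ∀ e, Fintype (𝒢.H e) := fun e => Fintype.ofFinite _
  refine stable_UGroup hsCls_metric hc hs' (fun F ε hε => ?_) hfin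
  exact matchingG hsCls_metric 𝒢.src 𝒢.tgt 𝒢.f 𝒢.f' (fun e => HH (𝒢.H e))
    (fun v => NH (N v) (hs' v)) (fun e => FH (N _) (𝒢.f e) (hs' _) (n3 e))
    (fun e => FH (N _) (𝒢.f' e) (hs' _) (n4 e)) (fun e k π u => conjH k π u) F ε hε

theorem perm_retract {P F : Type} [Group P] [Group F] (i : P →* F) (r : F →* P)
    (hri : r.comp i = MonoidHom.id P) (hF : PermutationStable F) : PermutationStable P :=
  (permStable_iff _).mpr (stable_retract i r hri ((permStable_iff _).mp hF))

theorem hs_retract {P F : Type} [Group P] [Group F] (i : P →* F) (r : F →* P)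
    (hri : r.comp i = MonoidHom.id P) (hF : HilbertSchmidtStable F) : HilbertSchmidtStable P :=
  (hsStable_iff _).mpr (stable_retract i r hri ((hsStable_iff _).mp hF))

/-! ### HNN extensions -/

section HNN

variable {G : Type} [Group G] {A B : Subgroup G} (φ : A ≃* B)

/-- The graph of groups of an HNN extension: one vertex and one loop. -/
abbrev hnnGraph : GraphOfGroups where
  V := Unit
  E := Unit
  finV := inferInstance
  neV := inferInstance
  finE := inferInstance
  G _ := G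
  grpG _ := inferInstance
  H _ := A
  grpH _ := inferInstance
  src _ := ()
  tgt _ := ()
  f _ := A.subtype
  f' _ := B.subtype.comp φ.toMonoidHom

theorem hnn_retract : ∃ (i : HNNExtension G A B φ →* UGroup (hnnGraph φ))
    (r : UGroup (hnnGraph φ) →* HNNExtension G A B φ), r.comp i = MonoidHom.id _ := by
  refine ⟨HNNExtension.lift (ι (𝒢 := hnnGraph φ) ()) (st (𝒢 := hnnGraph φ) ()) ?_,
    lift (𝒢 := hnnGraph φ) (fun _ => HNNExtension.of) (fun _ => HNNExtension.t) ?_, ?_⟩
  · intro a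
    have h := rel (𝒢 := hnnGraph φ) () a
    have h' : st (𝒢 := hnnGraph φ) () * ι (𝒢 := hnnGraph φ) () (a : G) *
      (st (𝒢 := hnnGraph φ) ())⁻¹ = ι (𝒢 := hnnGraph φ) () (φ a : G) := h
    rw [← h']
    group
  · intro e a
    exact (HNNExtension.equiv_eq_conj a).symm
  · apply HNNExtension.hom_ext
    · ext g
      simp only [MonoidHom.comp_apply, MonoidHom.id_apply]
      rw [HNNExtension.lift_of]
      exact lift_ι (𝒢 := hnnGraph φ) _ _ _ () g
    · simp only [MonoidHom.comp_apply, MonoidHom.id_apply]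
      rw [HNNExtension.lift_t]
      exact lift_st (𝒢 := hnnGraph φ) _ _ _ ()

theorem hnn_good [Finite A] (hA : AlmostNormal A) (hB : AlmostNormal B) :
    GoodEdges (hnnGraph φ) where
  fin _ := (inferInstance : Finite A)
  src _ := by
    show AlmostNormal (A.subtype).range
    rw [Subgroup.range_subtype]
    exact hA
  tgt _ := by
    show AlmostNormal (B.subtype.comp φ.toMonoidHom).range
    rw [MonoidHom.range_comp]
    have h1 : φ.toMonoidHom.range = ⊤ := MonoidHom.range_eq_top.mpr φ.surjective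
    rw [h1, ← MonoidHom.range_eq_map, Subgroup.range_subtype]
    exact hB

end HNN

/-! ### Amalgams of several groups -/

section pushout

variable {I : Type} [Fintype I] [Nonempty I] {G : I → Type} [∀ i, Group (G i)] {H : Type}
  [Group H] (φ : ∀ i, H →* G i)

/-- A star of groups. -/
noncomputable abbrev starGraph (i0 : I) : GraphOfGroups where
  V := I
  E := I
  finV := inferInstance
  neV := inferInstance
  finE := inferInstance
  G i := G i
  grpG _ := inferInstance
  H _ := H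
  grpH _ := inferInstance
  src _ := i0
  tgt e := e
  f _ := φ i0
  f' e := φ e

theorem star_retract (i0 : I) : ∃ (i : Monoid.PushoutI φ →* UGroup (starGraph φ i0))
    (r : UGroup (starGraph φ i0) →* Monoid.PushoutI φ), r.comp i = MonoidHom.id _ := by
  have key : ∀ (r : UGroup (starGraph φ i0) →* Monoid.PushoutI φ) (i : I) (g : G i),
      r (ι (𝒢 := starGraph φ i0) i g) = Monoid.PushoutI.of i g →
      r (st (𝒢 := starGraph φ i0) i) = 1 →
      r (((MulAut.conj (st (𝒢 := starGraph φ i0) i)⁻¹).toMonoidHom.comp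
        (ι (𝒢 := starGraph φ i0) i)) g) = Monoid.PushoutI.of i g := by
    intro r i g h1 h2
    show r ((st (𝒢 := starGraph φ i0) i)⁻¹ * ι (𝒢 := starGraph φ i0) i g *
      ((st (𝒢 := starGraph φ i0) i)⁻¹)⁻¹) = Monoid.PushoutI.of i g
    rw [inv_inv, map_mul, map_mul, map_inv, h1, h2, inv_one, one_mul, mul_one]
  refine ⟨Monoid.PushoutI.lift (K := UGroup (starGraph φ i0)) (fun i => (MulAut.conj (st (𝒢 := starGraph φ i0) i)⁻¹).toMonoidHom.comp
      (ι (𝒢 := starGraph φ i0) i)) ((ι (𝒢 := starGraph φ i0) i0).comp (φ i0)) ?_,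
    lift (𝒢 := starGraph φ i0) (fun i => Monoid.PushoutI.of i) (fun _ => 1) ?_, ?_⟩
  · intro i
    ext h
    have hrel := rel (𝒢 := starGraph φ i0) i h
    have hrel' : st (𝒢 := starGraph φ i0) i * ι (𝒢 := starGraph φ i0) i0 (φ i0 h) *
      (st (𝒢 := starGraph φ i0) i)⁻¹ = ι (𝒢 := starGraph φ i0) i (φ i h) := hrel
    show (st (𝒢 := starGraph φ i0) i)⁻¹ * ι (𝒢 := starGraph φ i0) i (φ i h) *
      ((st (𝒢 := starGraph φ i0) i)⁻¹)⁻¹ = ι (𝒢 := starGraph φ i0) i0 (φ i0 h)
    rw [← hrel']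
    group
  · intro e h
    show 1 * Monoid.PushoutI.of i0 (φ i0 h) * 1⁻¹ = Monoid.PushoutI.of e (φ e h)
    rw [Monoid.PushoutI.of_apply_eq_base, Monoid.PushoutI.of_apply_eq_base]
    group
  · apply Monoid.PushoutI.hom_ext_nonempty
    intro i
    ext g
    simp only [MonoidHom.comp_apply, MonoidHom.id_apply]
    rw [Monoid.PushoutI.lift_of]
    exact key _ i g (lift_ι (𝒢 := starGraph φ i0) _ _ _ i g) (lift_st (𝒢 := starGraph φ i0) _ _ _ i)

theorem star_good [Finite H] (hn : ∀ i, AlmostNormal (φ i).range) (i0 : I) :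
    GoodEdges (starGraph φ i0) where
  fin _ := (inferInstance : Finite H)
  src _ := hn i0
  tgt e := hn e

end pushout

end Pool.Agent.H828.GoG
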